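import Pool.Agent.X65.RW.Time

/-!
# Unidirectional maintenance scheduling is solvable in polynomial time

Problem MP_2ca8f5_lc, Q1. The definitions of the problem are in `Pool.Agent.X65.RW.Geo`:

* a nonnegative rational number is given as a fraction `q = (numerator, denominator)`, and `toR q`
  is its value;
* an instance is `(L, δ, T, J)`: length of the corridor, travel time, list of the start times of the
  paths, list of the jobs (release time, deadline, processing time, lower and upper end of the
  location interval); `IsInstance L δ T J` says that the denominators are positive, `L, δ > 0`, the
  start times are strictly increasing, and `p ≤ d - r`, `l ≤ u ≤ L` for every job;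
* `path L δ t` is the segment from `(t, 0)` to `(t + δ, L)` and `box j s` is the box
  `[s, s + p] × [l, u]` of the job `j` started at time `s`;
* `IsSchedule J S`: the list `S` of real numbers has a start time in `[r, d - p]` for each job;
* `Cancelled L δ J S t`: the path starting at time `t` meets the box of a job of the schedule `S`;
* `cancelled L δ T J S` is the number of the cancelled paths.

Polynomial time is `Pool.Agent.NPC.PolyTime` (Mathlib's `TM2ComputableInPolyTime` for functions on
bit strings); `bits` is the standard code of structured data (numbers in binary).
-/

set_option autoImplicit false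

namespace Pool.Agent.Results.MP_2ca8f5_lc.PolynomialTime

open Pool.Agent.NPC Pool.Agent.X65.RW

/-- **Unidirectional maintenance scheduling with unevenly spaced parallel train paths is solvable in
polynomial time**: there is a polynomial-time function which on every instance outputs the rational
start times of a schedule, and no schedule, with rational or with real start times, has fewer
cancelled paths. -/
theorem result : ∃ A : List Bool → List Bool, PolyTime A ∧
    ∀ (L δ : Fr) (T : List Fr) (J : List Job), IsInstance L δ T J →
      ∃ S : List Fr, A (bits (L, δ, T, J)) = bits S ∧ (∀ s ∈ S, 0 < s.2) ∧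
        IsSchedule J (S.map toR) ∧
        ∀ S' : List ℝ, IsSchedule J S' →
          cancelled L δ T J (S.map toR) ≤ cancelled L δ T J S' := by
  have h0 : NPC.Poly (fun y : List Bool × (Fr × Fr × List Fr × List Job) => alg y.2) :=
    NPC.Poly.comp poly_alg (NPC.Poly.snd NPC.Poly.id)
  have h1 : NPC.Poly (fun x : List Bool =>
      (unbits (Fr × Fr × List Fr × List Job) x).map alg) :=
    NPC.Poly.optMap_fp (h := fun _ y => alg y) poly_unbits h0
  refine ⟨_, polyTime_opt h1, ?_⟩
  intro L δ T J hI
  obtain ⟨h2, h3, h4⟩ := alg_spec hI
  refine ⟨alg (L, δ, T, J), ?_, h2, h3, h4⟩
  simp only [unbits_bits, Option.map_some]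

end Pool.Agent.Results.MP_2ca8f5_lc.PolynomialTime
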